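import Pool.Agent.W544.FF.Defs

/-!
# (ONC): invariants with complex coefficients, from the real case
-/

open Matrix Finset Module

namespace Pool.Agent.W160.FF.ONC

open Pool.Agent.W544.PG Pool.Agent.W544.FF

/-- the real part of a pullback of a complex form by a real matrix -/
theorem pull_re {n k : ℕ} (R : Matrix (Fin n) (Fin n) ℝ) (t : (Fin k → Fin n) → ℂ)
    (J : Fin k → Fin n) : (pull (rC R) t J).re = pull R (fun K => (t K).re) J := by
  simp only [pull, rC, Matrix.map_apply]
  rw [Complex.re_sum]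
  refine Finset.sum_congr rfl fun K _ => ?_
  rw [← Complex.ofReal_prod, Complex.re_ofReal_mul]

theorem pull_im {n k : ℕ} (R : Matrix (Fin n) (Fin n) ℝ) (t : (Fin k → Fin n) → ℂ)
    (J : Fin k → Fin n) : (pull (rC R) t J).im = pull R (fun K => (t K).im) J := by
  simp only [pull, rC, Matrix.map_apply]
  rw [Complex.im_sum]
  refine Finset.sum_congr rfl fun K _ => ?_
  rw [← Complex.ofReal_prod, Complex.im_ofReal_mul]

theorem genO_cast {n r k : ℕ} (c : Fin n → Fin r) (σ : Fin k → Fin k) (f : Fin k → Fin r)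
    (J : Fin k → Fin n) : ((genO ℝ c σ f J : ℝ) : ℂ) = genO ℂ c σ f J := by
  unfold genO
  push_cast
  congr 1
  · split_ifs <;> simp
  · refine Finset.prod_congr rfl fun j _ => ?_
    split_ifs <;> simp

theorem cast_span {n r k : ℕ} (c : Fin n → Fin r) (s : (Fin k → Fin n) → ℝ)
    (hs : s ∈ Submodule.span ℝ {g | ∃ σ f, Mat k σ ∧ g = genO ℝ c σ f}) :
    (fun J => ((s J : ℝ) : ℂ)) ∈ Submodule.span ℂ {g | ∃ σ f, Mat k σ ∧ g = genO ℂ c σ f} := by
  induction hs using Submodule.span_induction with
  | mem x hx =>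
    obtain ⟨σ, f, h1, rfl⟩ := hx
    refine Submodule.subset_span ⟨σ, f, h1, ?_⟩
    funext J
    exact genO_cast c σ f J
  | zero =>
    have : (fun J : Fin k → Fin n => (((0 : (Fin k → Fin n) → ℝ) J : ℝ) : ℂ)) = 0 := by
      funext J; simp
    rw [this]
    exact Submodule.zero_mem _
  | add x y _ _ hx hy =>
    have : (fun J : Fin k → Fin n => (((x + y) J : ℝ) : ℂ)) =
        (fun J => ((x J : ℝ) : ℂ)) + fun J => ((y J : ℝ) : ℂ) := by
      funext J; simp
    rw [this]
    exact Submodule.add_mem _ hx hy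
  | smul a x _ hx =>
    have : (fun J : Fin k → Fin n => (((a • x) J : ℝ) : ℂ)) =
        (a : ℂ) • (fun J => ((x J : ℝ) : ℂ)) := by
      funext J; simp
    rw [this]
    exact Submodule.smul_mem _ _ hx

theorem onc (honb : S_onb) : S_onc := by
  intro n r k c t ht
  have h1 : InvO c (fun K => (t K).re) := by
    intro R hR hB
    funext J
    rw [← pull_re, ht R hR hB]
  have h2 : InvO c (fun K => (t K).im) := by
    intro R hR hB
    funext J
    rw [← pull_im, ht R hR hB]
  have h3 := cast_span c _ (honb n r k c _ h1)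
  have h4 := cast_span c _ (honb n r k c _ h2)
  have : t = (fun J => (((t J).re : ℝ) : ℂ)) + Complex.I • (fun J => (((t J).im : ℝ) : ℂ)) := by
    funext J
    simp only [Pi.add_apply, Pi.smul_apply, smul_eq_mul]
    rw [mul_comm, Complex.re_add_im]
  rw [this]
  exact Submodule.add_mem _ h3 (Submodule.smul_mem _ _ h4)

end Pool.Agent.W160.FF.ONC
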